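import Pool.Agent.Q283.FG.Stm3
import Pool.Agent.Q285.LK.CPL

/-! Project FG (helper283), job IDP: the local index of multiplication by `2`
(template: `Q124.FT.idp` by helper124, `Q149.EN.idx2` by helper149). -/

set_option autoImplicit false

namespace Pool.Agent.Q190.FG

open NumberField IsDedekindDomain WeierstrassCurve
open Pool.Agent.Q7.LK Pool.Agent.Q283.EN Pool.Agent.Y682 Pool.Agent.Q285.LK
open Pool.Agent.Q283.FT (Rt crv)
open Pool.Agent.TH841.SH.D (Pt act)
open Pool.Agent.TH841.SH (IsR)

theorem isR {F : Type} [Field F] {e : Fin 3 → F} (he : Rt e) (L : Type) [Field L] [Algebra F L] :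
    IsR ((crv e).baseChange L) (algebraMap F L (e 0)) (algebraMap F L (e 1)) (algebraMap F L (e 2)) := by
  refine ⟨?_, ?_, ?_, ?_, ?_⟩
  · change algebraMap F L 0 = 0
    exact map_zero _
  · change algebraMap F L 0 = _
    rw [← map_add, ← map_add, he.sum, map_zero, neg_zero]
  · change algebraMap F L 0 = 0
    exact map_zero _
  · change algebraMap F L (e 0 * e 1 + e 0 * e 2 + e 1 * e 2) = _
    simp only [map_add, map_mul]
  · change algebraMap F L (-(e 0 * e 1 * e 2)) = _
    simp only [map_neg, map_mul]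

/-- JOB IDP -/
theorem idp (hLIX : Pool.Agent.Q283.EN.S_LIX) (hVLR : Pool.Agent.Q283.FG.S_VLR) :
    Pool.Agent.Q283.FG.S_IDP := by
  intro F _ _ v e he hint
  obtain ⟨m, hm, hN⟩ := (hVLR F).1 v
  have hR := isR he (v.adicCompletion F)
  set a := algebraMap F (v.adicCompletion F) (e 0) with ha
  set b := algebraMap F (v.adicCompletion F) (e 1) with hb
  set c := algebraMap F (v.adicCompletion F) (e 2) with hc
  have hab : a ≠ b := fun h => absurd (he.inj ((algebraMap F (v.adicCompletion F)).injective h)) (by decide)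
  have hac : a ≠ c := fun h => absurd (he.inj ((algebraMap F (v.adicCompletion F)).injective h)) (by decide)
  have hbc : b ≠ c := fun h => absurd (he.inj ((algebraMap F (v.adicCompletion F)).injective h)) (by decide)
  have hle : ∀ j, vv v (algebraMap F (v.adicCompletion F) (e j)) ≤ 1 := by
    intro j
    rw [vv_coe]
    exact v.valuation_le_one (⟨e j, hint j⟩ : 𝓞 F)
  have hva : vv v a ≤ 1 := hle 0
  have hvb : vv v b ≤ 1 := hle 1
  have hvc : vv v c ≤ 1 := hle 2
  have hv2 : vv v (2 : v.adicCompletion F) = WithZero.exp (-(m : ℤ)) := by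
    have e2 : (2 : v.adicCompletion F) = algebraMap F _ (2 : F) := (map_ofNat _ 2).symm
    rw [e2, vv_coe, hm]
  have h2 : (2 : v.adicCompletion F) ≠ 0 := by
    intro h0
    rw [h0, map_zero] at hv2
    exact WithZero.exp_ne_zero hv2.symm
  -- the points of order two
  have ha0 : ((crv e).baseChange (v.adicCompletion F)).toAffine.Nonsingular a 0 :=
    hR.nons h2 hab hac hbc (by rw [sub_self]; ring)
  have hb0 : ((crv e).baseChange (v.adicCompletion F)).toAffine.Nonsingular b 0 :=
    hR.nons h2 hab hac hbc (by rw [sub_self]; ring)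
  have hc0 : ((crv e).baseChange (v.adicCompletion F)).toAffine.Nonsingular c 0 :=
    hR.nons h2 hab hac hbc (by rw [sub_self]; ring)
  let T0 : Pt (crv e) (v.adicCompletion F) := Affine.Point.some a 0 ha0
  let T1 : Pt (crv e) (v.adicCompletion F) := Affine.Point.some b 0 hb0
  let T2 : Pt (crv e) (v.adicCompletion F) := Affine.Point.some c 0 hc0
  have n0 : (0 : Pt (crv e) (v.adicCompletion F)) ≠ T0 := fun h => Affine.Point.some_ne_zero _ h.symm
  have n1 : (0 : Pt (crv e) (v.adicCompletion F)) ≠ T1 := fun h => Affine.Point.some_ne_zero _ h.symm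
  have n2 : (0 : Pt (crv e) (v.adicCompletion F)) ≠ T2 := fun h => Affine.Point.some_ne_zero _ h.symm
  have n01 : T0 ≠ T1 := fun h => hab (Affine.Point.some.inj h).1
  have n02 : T0 ≠ T2 := fun h => hac (Affine.Point.some.inj h).1
  have n12 : T1 ≠ T2 := fun h => hbc (Affine.Point.some.inj h).1
  classical
  have hcard : ({0, T0, T1, T2} : Finset (Pt (crv e) (v.adicCompletion F))).card = 4 := by
    rw [Finset.card_insert_of_notMem, Finset.card_insert_of_notMem, Finset.card_insert_of_notMem,
      Finset.card_singleton]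
    · rw [Finset.mem_singleton]; exact n12
    · rw [Finset.mem_insert, Finset.mem_singleton, not_or]; exact ⟨n01, n02⟩
    · rw [Finset.mem_insert, Finset.mem_insert, Finset.mem_singleton, not_or, not_or]
      exact ⟨n0, n1, n2⟩
  have hK : ∀ P ∈ ({0, T0, T1, T2} : Finset (Pt (crv e) (v.adicCompletion F))),
      (AddMonoidHom.id (Pt (crv e) (v.adicCompletion F)) +
        AddMonoidHom.id (Pt (crv e) (v.adicCompletion F))) P = 0 := by
    intro P hP
    rw [Finset.mem_insert, Finset.mem_insert, Finset.mem_insert, Finset.mem_singleton] at hP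
    rcases hP with rfl | rfl | rfl | rfl
    · exact map_zero _
    · exact (@IsR.add_self _ _ _ _ _ _ (Classical.decEq _) hR h2 _ _ ha0).2 rfl
    · exact (@IsR.add_self _ _ _ _ _ _ (Classical.decEq _) hR h2 _ _ hb0).2 rfl
    · exact (@IsR.add_self _ _ _ _ _ _ (Classical.decEq _) hR h2 _ _ hc0).2 rfl
  obtain ⟨M, hM1, hM2⟩ := hLIX F v (e 0 * e 1 + e 0 * e 2 + e 1 * e 2) (-(e 0 * e 1 * e 2))
    ((((hint 0).mul (hint 1)).add ((hint 0).mul (hint 2))).add ((hint 1).mul (hint 2)))
    (((hint 0).mul (hint 1)).mul (hint 2)).neg (by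
      have h01 : e 0 - e 1 ≠ 0 := sub_ne_zero.2 fun h => absurd (he.inj h) (by decide)
      have h02 : e 0 - e 2 ≠ 0 := sub_ne_zero.2 fun h => absurd (he.inj h) (by decide)
      have h12 : e 1 - e 2 ≠ 0 := sub_ne_zero.2 fun h => absurd (he.inj h) (by decide)
      have hs : e 2 = -(e 0 + e 1) := by linear_combination he.sum
      have key : 4 * (e 0 * e 1 + e 0 * e 2 + e 1 * e 2) ^ 3 + 27 * (-(e 0 * e 1 * e 2)) ^ 2 =
          -((e 0 - e 1) * (e 0 - e 2) * (e 1 - e 2)) ^ 2 := by
        rw [hs]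
        ring
      rw [key]
      exact neg_ne_zero.2 (pow_ne_zero 2 (mul_ne_zero (mul_ne_zero h01 h02) h12)))
    (AddMonoidHom.id (Pt (crv e) (v.adicCompletion F)) +
      AddMonoidHom.id (Pt (crv e) (v.adicCompletion F))) m 1 (by
    intro x y h hx
    have hx1 : 1 < vv v x := lt_of_lt_of_le (by
      rw [← WithZero.exp_zero]
      exact WithZero.exp_lt_exp.2 (by norm_num)) hx
    have hx0 : x ≠ 0 := by
      rintro rfl
      rw [map_zero] at hx1
      exact not_lt_zero hx1
    have hvx : vv v x ≠ 0 := (Valuation.ne_zero_iff _).2 hx0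
    have hsub : ∀ z : v.adicCompletion F, vv v z ≤ 1 → vv v (x - z) = vv v x := by
      intro z hz
      exact Valuation.map_sub_eq_of_lt_left _ (lt_of_le_of_lt hz hx1)
    have heq := (hR.eqn x y).1 h.1
    have hvy : vv v y ^ 2 = vv v x ^ 3 := by
      rw [← map_pow, heq, map_mul, map_mul, hsub a hva, hsub b hvb, hsub c hvc]
      exact (pow_three' _).symm
    have hy : y ≠ 0 := by
      rintro rfl
      rw [map_zero, zero_pow two_ne_zero] at hvy
      exact pow_ne_zero 3 hvx hvy.symm
    obtain ⟨X, Y, h', hadd, hX⟩ := @IsR.dup _ _ _ _ _ _ (Classical.decEq _) hR h2 x y h hy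
    refine ⟨X, Y, h', hadd, ?_⟩
    have hnum : vv v ((x - a) ^ 2 - (a - b) * (a - c)) = vv v x ^ 2 := by
      have h3 : vv v ((a - b) * (a - c)) ≤ 1 := by
        rw [map_mul]
        exact mul_le_one' ((Valuation.map_sub _ _ _).trans (max_le hva hvb))
          ((Valuation.map_sub _ _ _).trans (max_le hva hvc))
      rw [Valuation.map_sub_eq_of_lt_left, map_pow, hsub a hva]
      rw [map_pow, hsub a hva]
      exact lt_of_le_of_lt h3 (one_lt_pow₀ hx1 two_ne_zero)
    have hXa : vv v (X - a) * (vv v 2) ^ 2 = vv v x := by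
      have h3 : vv v (X - a) * (vv v 2 ^ 2 * vv v y ^ 2) = vv v x ^ 4 := by
        have h4 : (X - a) * (2 * y) ^ 2 = ((x - a) ^ 2 - (a - b) * (a - c)) ^ 2 := by
          rw [hX, div_pow, div_mul_cancel₀]
          exact pow_ne_zero 2 (mul_ne_zero h2 hy)
        have h5 := congrArg (vv v) h4
        rw [map_mul, map_pow, map_mul, map_pow, hnum, mul_pow] at h5
        rw [h5, ← pow_mul]
      rw [hvy, ← mul_assoc] at h3
      have h4 : vv v (X - a) * vv v 2 ^ 2 * vv v x ^ 3 = vv v x * vv v x ^ 3 := by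
        rw [h3]
        exact pow_succ' _ _
      exact mul_right_cancel₀ (pow_ne_zero 3 hvx) h4
    have hXv : WithZero.exp (2 * ((m : ℕ) : ℤ)) * vv v x = vv v (X - a) := by
      rw [← hXa, hv2, ← WithZero.exp_nsmul, mul_comm (vv v (X - a)), ← mul_assoc,
        ← WithZero.exp_add]
      have e3 : 2 * ((m : ℕ) : ℤ) + 2 • (-(m : ℤ)) = 0 := by
        rw [two_nsmul]
        ring
      rw [e3, WithZero.exp_zero, one_mul]
    show WithZero.exp (2 * ((m : ℕ) : ℤ)) * vv v x ≤ vv v X
    rw [hXv]
    have h6 : 1 < vv v (X - a) := by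
      rw [← hXv]
      refine lt_of_lt_of_le hx1 (le_mul_of_one_le_left' ?_)
      rw [← WithZero.exp_zero]
      exact WithZero.exp_le_exp.2 (by positivity)
    have h7 : X = (X - a) + a := by ring
    have h8 : vv v X = vv v (X - a) := by
      conv_lhs => rw [h7]
      exact Valuation.map_add_eq_of_lt_left _ (lt_of_le_of_lt hva h6)
    rw [h8]) {0, T0, T1, T2} hK
  refine ⟨M, ?_, fun P hP Q hQ hPQ R => hM2 P hP Q hQ hPQ R⟩
  refine le_trans (le_of_eq ?_) hM1
  have hcard' := hcard
  rw [hN]
  refine Eq.trans ?_ (congrArg (fun n => n * 2 ^ dv 2 v) hcard').symm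
  rw [pow_add, mul_comm]
  norm_num

end Pool.Agent.Q190.FG
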