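import Pool.Agent.Q283.FG.Stm3

/-! Project FG (helper283), job RSQ: the quadratic relation at the real places. -/

set_option autoImplicit false

namespace Pool.Agent.Q190.FG

open NumberField IsDedekindDomain
open Pool.Agent.Q7.LK
open Pool.Agent.Q283.FT (Rt df)
open Pool.Agent.Q283.FG

/-- a positive form which represents multiples of squares -/
theorem pos_aux {P Q R x y z w d d' : ℝ} (hP : 0 < P) (hQ : 0 < Q) (hR : 0 < R)
    (h1 : P * x ^ 2 + Q * y ^ 2 = d * w ^ 2) (h2 : P * x ^ 2 + R * z ^ 2 = d' * w ^ 2)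
    (hd : d ≠ 0) (hd' : d' ≠ 0) (hne : ¬ (x = 0 ∧ y = 0 ∧ z = 0 ∧ w = 0)) : 0 < d ∧ 0 < d' := by
  have hx : 0 ≤ P * x ^ 2 := by positivity
  have hy : 0 ≤ Q * y ^ 2 := by positivity
  have hz : 0 ≤ R * z ^ 2 := by positivity
  have hw : w ≠ 0 := by
    intro hw
    rw [hw] at h1 h2
    have e1 : P * x ^ 2 = 0 := by nlinarith
    have e2 : Q * y ^ 2 = 0 := by nlinarith
    have e3 : R * z ^ 2 = 0 := by nlinarith
    refine hne ⟨?_, ?_, ?_, hw⟩
    · exact pow_eq_zero_iff two_ne_zero |>.1 ((mul_eq_zero.1 e1).resolve_left hP.ne')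
    · exact pow_eq_zero_iff two_ne_zero |>.1 ((mul_eq_zero.1 e2).resolve_left hQ.ne')
    · exact pow_eq_zero_iff two_ne_zero |>.1 ((mul_eq_zero.1 e3).resolve_left hR.ne')
  have hw2 : 0 < w ^ 2 := by positivity
  constructor
  · refine lt_of_le_of_ne ?_ hd.symm
    by_contra hneg
    push Not at hneg
    have := mul_neg_of_neg_of_pos hneg hw2
    linarith
  · refine lt_of_le_of_ne ?_ hd'.symm
    by_contra hneg
    push Not at hneg
    have := mul_neg_of_neg_of_pos hneg hw2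
    linarith

theorem signs {F : Type} [Field F] [NumberField F] {e : Fin 3 → F} (he : Rt e) {φ : F →+* ℝ} {a b : F}
    (h : RX φ e a b) : (0 < φ a ∧ 0 < φ b) ∨ (0 < φ a ∧ φ b < 0 ∧ φ (e 0) < φ (e 1) ∧ φ (e 0) < φ (e 2)) ∨
      (φ a < 0 ∧ 0 < φ b ∧ φ (e 1) < φ (e 0) ∧ φ (e 1) < φ (e 2)) ∨
      (φ a < 0 ∧ φ b < 0 ∧ φ (e 2) < φ (e 0) ∧ φ (e 2) < φ (e 1)) := by
  obtain ⟨ha, hb, z, w, hne, h1, h2⟩ := h
  have hA : φ a ≠ 0 := (map_ne_zero φ).2 ha
  have hB : φ b ≠ 0 := (map_ne_zero φ).2 hb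
  have hd : ∀ i j : Fin 3, i ≠ j → φ (e i) - φ (e j) ≠ 0 := by
    intro i j hij h0
    exact hij (he.inj (φ.injective (sub_eq_zero.1 h0)))
  have hne' : ¬ (z 0 = 0 ∧ z 1 = 0 ∧ z 2 = 0 ∧ w = 0) := by
    rintro ⟨h3, h4, h5, h6⟩
    rcases hne with h7 | h7
    · apply h7
      funext i
      fin_cases i
      · exact h3
      · exact h4
      · exact h5
    · exact h7 h6
  rw [map_mul] at h2
  rcases lt_or_gt_of_ne hA with hA | hA <;> rcases lt_or_gt_of_ne hB with hB | hB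
  · right; right; right
    have hAB : 0 < φ a * φ b := mul_pos_of_neg_of_neg hA hB
    obtain ⟨h3, h4⟩ := pos_aux (P := φ a * φ b) (Q := -φ a) (R := -φ b) (x := z 2) (y := z 0) (z := z 1) (w := w)
      (d := φ (e 0) - φ (e 2)) (d' := φ (e 1) - φ (e 2)) hAB (by linarith) (by linarith) (by linarith) (by linarith)
      (hd 0 2 (by decide)) (hd 1 2 (by decide)) (by
        rintro ⟨h5, h6, h7, h8⟩
        exact hne' ⟨h6, h7, h5, h8⟩)
    exact ⟨hA, hB, by linarith, by linarith⟩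
  · right; right; left
    have hAB : φ a * φ b < 0 := mul_neg_of_neg_of_pos hA hB
    obtain ⟨h3, h4⟩ := pos_aux (P := φ b) (Q := -φ a) (R := -(φ a * φ b)) (x := z 1) (y := z 0) (z := z 2) (w := w)
      (d := φ (e 0) - φ (e 1)) (d' := φ (e 2) - φ (e 1)) hB (by linarith) (by linarith) (by linarith) (by linarith)
      (hd 0 1 (by decide)) (hd 2 1 (by decide)) (by
        rintro ⟨h5, h6, h7, h8⟩
        exact hne' ⟨h6, h5, h7, h8⟩)
    exact ⟨hA, hB, by linarith, by linarith⟩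
  · right; left
    have hAB : φ a * φ b < 0 := mul_neg_of_pos_of_neg hA hB
    obtain ⟨h3, h4⟩ := pos_aux (P := φ a) (Q := -φ b) (R := -(φ a * φ b)) (x := z 0) (y := z 1) (z := z 2) (w := w)
      (d := φ (e 1) - φ (e 0)) (d' := φ (e 2) - φ (e 0)) hA (by linarith) (by linarith) (by linarith) (by linarith)
      (hd 1 0 (by decide)) (hd 2 0 (by decide)) (by
        rintro ⟨h5, h6, h7, h8⟩
        exact hne' ⟨h5, h6, h7, h8⟩)
    exact ⟨hA, hB, by linarith, by linarith⟩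
  · exact Or.inl ⟨hA, hB⟩

/-- JOB RSQ -/
theorem rsq : S_RSQ := by
  intro F _ _ ζ _ t s hs e he φ a b h
  have ha : a ≠ 0 := h.1
  have hb : b ≠ 0 := h.2.1
  have m1 : (-1 : F) ≠ 0 := neg_ne_zero.2 one_ne_zero
  have hsg : ∀ x y : F, x ≠ 0 → y ≠ 0 → φ x < 0 → φ y < 0 → s φ x y = s φ (-1) (-1) := by
    intro x y hx hy h1 h2
    have e1 : s φ x y = s φ (-1) y := by
      have h3 := hs.rmul φ (-1) (-x) y m1 (neg_ne_zero.2 hx) hy
      rw [neg_one_mul, neg_neg] at h3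
      rw [h3, hs.rpos φ (-x) y (by rw [map_neg]; linarith) hy, add_zero]
    have e2 : s φ (-1) y = s φ (-1) (-1) := by
      have h3 := hs.rmul φ (-1) (-y) (-1) m1 (neg_ne_zero.2 hy) m1
      rw [neg_one_mul, neg_neg] at h3
      rw [hs.rsym φ (-1) y m1 hy, h3, hs.rpos φ (-y) (-1) (by rw [map_neg]; linarith) m1, add_zero]
    rw [e1, e2]
  have hpos' : ∀ x y : F, x ≠ 0 → 0 < φ y → s φ x y = 0 := by
    intro x y hx hy
    have hy0 : y ≠ 0 := by
      rintro rfl
      rw [map_zero] at hy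
      exact lt_irrefl _ hy
    rw [hs.rsym φ x y hx hy0]
    exact hs.rpos φ y x hy hx
  have hd : ∀ l, df e l ≠ 0 := by
    intro l
    unfold df
    split_ifs
    · exact sub_ne_zero.2 (he.inj.ne (by decide))
    · exact sub_ne_zero.2 (he.inj.ne (by decide))
    · exact sub_ne_zero.2 (he.inj.ne (by decide))
  have hX : -(df e 0 * df e 2) ≠ 0 := neg_ne_zero.2 (mul_ne_zero (hd 0) (hd 2))
  have hY : df e 1 * df e 2 ≠ 0 := mul_ne_zero (hd 1) (hd 2)
  have hXφ : φ (-(df e 0 * df e 2)) = (φ (e 1) - φ (e 2)) * (φ (e 1) - φ (e 0)) := by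
    rw [show df e 0 = e 1 - e 2 from rfl, show df e 2 = e 0 - e 1 from rfl, map_neg, map_mul, map_sub, map_sub]
    ring
  have hYφ : φ (df e 1 * df e 2) = (φ (e 0) - φ (e 2)) * (φ (e 0) - φ (e 1)) := by
    rw [show df e 1 = e 0 - e 2 from rfl, show df e 2 = e 0 - e 1 from rfl, map_mul, map_sub, map_sub]
  have two : ∀ x : ZMod 2, x + x = 0 := by decide
  rcases signs he h with ⟨h1, h2⟩ | ⟨h1, h2, h3, h4⟩ | ⟨h1, h2, h3, h4⟩ | ⟨h1, h2, h3, h4⟩
  · rw [hs.rpos φ a b h1 hb, hs.rpos φ a _ h1 hX, hs.rpos φ b _ h2 hY]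
    rfl
  · have h5 : 0 < φ (df e 1 * df e 2) := by
      rw [hYφ]
      exact mul_pos_of_neg_of_neg (by linarith) (by linarith)
    rw [hs.rpos φ a b h1 hb, hs.rpos φ a _ h1 hX, hpos' b _ hb h5]
    rfl
  · have h5 : 0 < φ (-(df e 0 * df e 2)) := by
      rw [hXφ]
      exact mul_pos_of_neg_of_neg (by linarith) (by linarith)
    rw [hpos' a b ha h2, hpos' a _ ha h5, hs.rpos φ b _ h2 hY]
    rfl
  · rw [hsg a b ha hb h1 h2]
    have h01 : φ (e 0) - φ (e 1) ≠ 0 := by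
      intro h0
      exact absurd (he.inj (φ.injective (sub_eq_zero.1 h0))) (by decide)
    rcases lt_or_gt_of_ne h01 with h5 | h5
    · have h6 : 0 < φ (-(df e 0 * df e 2)) := by
        rw [hXφ]
        exact mul_pos (by linarith) (by linarith)
      have h7 : φ (df e 1 * df e 2) < 0 := by
        rw [hYφ]
        exact mul_neg_of_pos_of_neg (by linarith) h5
      rw [hpos' a _ ha h6, hsg b _ hb hY h2 h7, add_zero]
      exact two _
    · have h6 : φ (-(df e 0 * df e 2)) < 0 := by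
        rw [hXφ]
        exact mul_neg_of_pos_of_neg (by linarith) (by linarith)
      have h7 : 0 < φ (df e 1 * df e 2) := by
        rw [hYφ]
        exact mul_pos (by linarith) h5
      rw [hpos' b _ hb h7, hsg a _ ha hX h1 h6, add_zero]
      exact two _

end Pool.Agent.Q190.FG
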